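import Pool.Agent.H79.GT.Targets

/-!
# Row RAD of the board `bq_modules`: the mass radius
-/

set_option autoImplicit false

namespace Pool.Agent.H21.BQ

open MeasureTheory Set Filter Topology Pool.Agent.H79.GT

variable {f p : ℝ → ℝ} {l u : ℝ}

theorem dns_int (h : Dns f p l u) : IntegrableOn f (Ioo l u) := by
  have h1 : IntegrableOn (fun x => 1 + f x ^ 2) (Ioo l u) := by
    refine Integrable.add ?_ h.sq
    exact integrableOn_const (by simp)
  refine Integrable.mono' h1 h.meas.aestronglyMeasurable (ae_of_all _ fun x => ?_)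
  rw [Real.norm_of_nonneg (h.nonneg x)]
  nlinarith [sq_nonneg (f x - 1), h.nonneg x]

theorem dns_mono (h : Dns f p l u) {x y : ℝ} (h1 : l ≤ x) (h2 : x ≤ y) (h3 : y ≤ u) :
    p x ≤ p y := by
  rcases eq_or_lt_of_le h2 with rfl | h4
  · exact le_rfl
  · exact (h.inc x y h1 h4 h3).le

theorem dns_cont (h : Dns f p l u) : ContinuousOn p (Icc l u) := by
  have h1 : IntegrableOn f (Icc l u) := by
    rw [integrableOn_Icc_iff_integrableOn_Ioo]
    exact dns_int h
  have h2 := intervalIntegral.continuousOn_primitive h1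
  have h3 : ContinuousOn (fun x => p l + ∫ t in Ioc l x, f t) (Icc l u) :=
    continuousOn_const.add h2
  refine h3.congr fun x hx => ?_
  have h4 := h.mass l x le_rfl hx.1 hx.2
  show p x = p l + ∫ t in Ioc l x, f t
  rw [integral_Ioc_eq_integral_Ioo]
  linarith

/-- the set of the radii -/
def Ms (p : ℝ → ℝ) (l u r x : ℝ) : Set ℝ :=
  {ρ : ℝ | 0 ≤ ρ ∧ l ≤ x - ρ ∧ x + ρ ≤ u ∧ p (x + ρ) - p (x - ρ) ≤ r}

theorem ms_bdd (p : ℝ → ℝ) (l u r x : ℝ) : BddAbove (Ms p l u r x) :=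
  ⟨x - l, fun ρ hρ => by linarith [hρ.2.1]⟩

theorem ms_cont (h : Dns f p l u) {x : ℝ} :
    ContinuousOn (fun ρ => p (x + ρ) - p (x - ρ)) (Icc 0 (min (x - l) (u - x))) := by
  refine ContinuousOn.sub ?_ ?_
  · refine (dns_cont h).comp (continuous_const.add continuous_id).continuousOn ?_
    intro ρ hρ
    have h1 := le_min_iff.1 hρ.2
    have h2 := hρ.1
    exact ⟨by show l ≤ x + ρ; linarith, by show x + ρ ≤ u; linarith⟩
  · refine (dns_cont h).comp (continuous_const.sub continuous_id).continuousOn ?_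
    intro ρ hρ
    have h1 := le_min_iff.1 hρ.2
    have h2 := hρ.1
    exact ⟨by show l ≤ x - ρ; linarith, by show x - ρ ≤ u; linarith⟩

theorem ms_closed (h : Dns f p l u) (r x : ℝ) : IsClosed (Ms p l u r x) := by
  have h1 : Ms p l u r x = Icc 0 (min (x - l) (u - x)) ∩
      (fun ρ => p (x + ρ) - p (x - ρ)) ⁻¹' Iic r := by
    ext ρ
    constructor
    · rintro ⟨a, b, c, d⟩
      exact ⟨⟨a, le_min (by linarith) (by linarith)⟩, d⟩
    · rintro ⟨⟨a, b⟩, d⟩
      have h1 := le_min_iff.1 b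
      exact ⟨a, by linarith, by linarith, d⟩
  rw [h1]
  exact (ms_cont h).preimage_isClosed_of_isClosed isClosed_Icc isClosed_Iic

theorem rad_mem (h : Dns f p l u) {r : ℝ} (hr : 0 < r) {x : ℝ} (h1 : l ≤ x) (h2 : x ≤ u) :
    rad p l u r x ∈ Ms p l u r x := by
  refine (ms_closed h r x).csSup_mem ⟨0, le_rfl, by linarith, by linarith, ?_⟩ (ms_bdd p l u r x)
  simp only [add_zero, sub_zero, sub_self]
  exact hr.le

theorem le_rad {r x ρ : ℝ} (h : ρ ∈ Ms p l u r x) : ρ ≤ rad p l u r x :=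
  le_csSup (ms_bdd p l u r x) h

theorem rad_out {r x : ℝ} (h : ¬ (l ≤ x ∧ x ≤ u)) : rad p l u r x = 0 := by
  have h1 : {ρ : ℝ | 0 ≤ ρ ∧ l ≤ x - ρ ∧ x + ρ ≤ u ∧ p (x + ρ) - p (x - ρ) ≤ r} = ∅ := by
    rw [Set.eq_empty_iff_forall_notMem]
    rintro ρ ⟨a, b, c, -⟩
    exact h ⟨by linarith, by linarith⟩
  unfold rad
  rw [h1, Real.sSup_empty]

theorem rad_nonneg (h : Dns f p l u) {r : ℝ} (hr : 0 < r) (x : ℝ) : 0 ≤ rad p l u r x := by
  by_cases hx : l ≤ x ∧ x ≤ u
  · exact (rad_mem h hr hx.1 hx.2).1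
  · rw [rad_out hx]

theorem ms_ext (h : Dns f p l u) {r x ρ : ℝ} (h0 : 0 ≤ ρ) (h1 : ρ < x - l) (h2 : ρ < u - x)
    (h3 : p (x + ρ) - p (x - ρ) < r) : ∃ ρ' ∈ Ms p l u r x, ρ < ρ' := by
  obtain ⟨c, hc⟩ : ∃ c, c = min (x - l) (u - x) := ⟨_, rfl⟩
  have hρc : ρ < c := by rw [hc]; exact lt_min h1 h2
  have h4 : ρ ∈ Icc 0 (min (x - l) (u - x)) := ⟨h0, by rw [← hc]; exact hρc.le⟩
  have h5 := (ms_cont h) ρ h4
  rw [Metric.continuousWithinAt_iff] at h5
  obtain ⟨δ, hδ, h6⟩ := h5 (r - (p (x + ρ) - p (x - ρ))) (by linarith)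
  refine ⟨min (ρ + δ / 2) c, ?_, lt_min (by linarith) hρc⟩
  have a1 : min (ρ + δ / 2) c ≤ ρ + δ / 2 := min_le_left _ _
  have a2 : min (ρ + δ / 2) c ≤ c := min_le_right _ _
  have a3 : ρ < min (ρ + δ / 2) c := lt_min (by linarith) hρc
  have a4 := le_min_iff.1 (a2.trans hc.le)
  have h7 := h6 (x := min (ρ + δ / 2) c) ⟨by linarith, a2.trans hc.le⟩ (by
    rw [Real.dist_eq, abs_of_pos (by linarith)]
    linarith)
  rw [Real.dist_eq] at h7
  have h8 := (abs_lt.1 h7).2
  exact ⟨by linarith, by linarith [a4.1], by linarith [a4.2], by linarith⟩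

theorem rad_lip (h : Dns f p l u) {r : ℝ} (hr : 0 < r) (x y : ℝ) :
    rad p l u r x ≤ rad p l u r y + |x - y| := by
  have hab := abs_nonneg (x - y)
  have hy0 := rad_nonneg h hr y
  by_cases hx : l ≤ x ∧ x ≤ u
  swap
  · rw [rad_out hx]
    linarith
  obtain ⟨a1, a2, a3, a4⟩ := rad_mem h hr hx.1 hx.2
  by_cases hy : l ≤ y ∧ y ≤ u
  swap
  · rw [not_and_or] at hy
    rcases hy with hy | hy
    · push Not at hy
      have := le_abs_self (x - y)
      linarith
    · push Not at hy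
      have := neg_abs_le (x - y)
      linarith
  rcases lt_or_ge (rad p l u r x - |x - y|) 0 with hρ | hρ
  · linarith
  · have b1 := le_abs_self (x - y)
    have b2 := neg_abs_le (x - y)
    have h1 : rad p l u r x - |x - y| ∈ Ms p l u r y := by
      refine ⟨hρ, by linarith, by linarith, ?_⟩
      have c1 : p (y + (rad p l u r x - |x - y|)) ≤ p (x + rad p l u r x) :=
        dns_mono h (by linarith [hy.1]) (by linarith) a3
      have c2 : p (x - rad p l u r x) ≤ p (y - (rad p l u r x - |x - y|)) :=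
        dns_mono h a2 (by linarith) (by linarith [hy.2])
      linarith
    linarith [le_rad h1]

theorem pf_RAD : T_RAD := by
  intro f p l u h r hr
  refine ⟨fun x h1 h2 => rad_mem h hr h1 h2, fun x h1 h2 => ?_, fun x y => ?_,
    fun x h1 h2 hz => ?_⟩
  · obtain ⟨ρ, hρ, hρ0⟩ := ms_ext h (r := r) (x := x) (ρ := 0) le_rfl (by linarith)
      (by linarith) (by simpa using hr)
    exact lt_of_lt_of_le hρ0 (le_rad hρ)
  · rw [abs_le]
    have h1 := rad_lip h hr x y
    have h2 := rad_lip h hr y x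
    rw [abs_sub_comm y x] at h2
    exact ⟨by linarith, by linarith⟩
  · obtain ⟨a1, a2, a3, a4⟩ := rad_mem h hr h1 h2
    by_contra hne
    have hlt := lt_of_le_of_ne a4 hne
    apply hz
    by_cases c1 : rad p l u r x < x - l
    · by_cases c2 : rad p l u r x < u - x
      · obtain ⟨ρ, hρ, hρ0⟩ := ms_ext h a1 c1 c2 hlt
        exact absurd (le_rad hρ) (not_le.2 hρ0)
      · have c3 : x + rad p l u r x = u := by linarith
        right
        rw [c3] at hlt
        have c4 : p (x - rad p l u r x) ≤ p x := dns_mono h a2 (by linarith) h2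
        linarith
    · have c3 : x - rad p l u r x = l := by linarith
      left
      rw [c3] at hlt
      have c4 : p x ≤ p (x + rad p l u r x) := dns_mono h h1 (by linarith) a3
      linarith

end Pool.Agent.H21.BQ
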